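import Pool.Agent.TH90.AB.Trace
import Mathlib.Algebra.Category.ModuleCat.Basic
import Mathlib.LinearAlgebra.Eigenspace.Basic
import Mathlib.LinearAlgebra.Trace
import Mathlib.LinearAlgebra.Dimension.Basic
import Mathlib.Algebra.BigOperators.Finprod

/-!
# Abelian tensor categories with a cohomology theory and a Frobenius endomorphism: definitions
-/

open CategoryTheory MonoidalCategory Limits

universe u v w x

namespace Pool.Agent.TH90.AB

noncomputable section

/-- The additive category `𝒜` is abelian: every morphism has a kernel and a cokernel, and the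
canonical morphism from the coimage to the image is an isomorphism. -/
structure IsAbelian (𝒜 : Type u) [Category.{v} 𝒜] [Preadditive 𝒜] : Prop where
  hasKernels : HasKernels 𝒜
  hasCokernels : HasCokernels 𝒜
  comparison : ∀ {X Y : 𝒜} (f : X ⟶ Y), IsIso (Abelian.coimageImageComparison f)

variable (𝒜 : Type u) [Category.{v} 𝒜] [MonoidalCategory 𝒜] [BraidedCategory 𝒜]
  [hdual : ∀ X : 𝒜, HasRightDual X] [Preadditive 𝒜] [Linear ℚ 𝒜]

/-- A cohomology theory on `𝒜` with coefficients in the field `K`: additive functors `H^i`, `i ∈ ℤ`,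
to finite-dimensional vector spaces, almost all of them zero on each object, such that the trace of
an endomorphism `f` of `M` is `∑_i (-1)^i Tr(f | H^i(M))` (the trace formula of Lefschetz). -/
structure Cohomology (K : Type w) [Field K] where
  /-- the cohomology groups -/
  H : ℤ → 𝒜 ⥤ ModuleCat.{x} K
  additive : ∀ i, (H i).Additive
  finite : ∀ i M, Module.Finite K ((H i).obj M)
  bounded : ∀ M, {i : ℤ | ¬ Subsingleton ((H i).obj M)}.Finite
  trace_formula : ∀ (M : 𝒜) (f : M ⟶ M) (q : ℚ), tr f = q • 𝟙 (𝟙_ 𝒜) →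
    (q : K) = ∑ᶠ i : ℤ, (if Even i then 1 else -1) * LinearMap.trace K _ ((H i).map f).hom

variable {𝒜}

/-- A Frobenius endomorphism: an endomorphism `F` of the identity functor of `𝒜` which is the
identity on the unit object, and such that `1` is not an eigenvalue of `F` on `H^i(M)` for `i ≠ 0`. -/
structure Frobenius {K : Type w} [Field K] (R : Cohomology.{u, v, w, x} 𝒜 K) where
  /-- the endomorphism of the identity functor -/
  F : 𝟭 𝒜 ⟶ 𝟭 𝒜
  unit : F.app (𝟙_ 𝒜) = 𝟙 (𝟙_ 𝒜)
  weights : ∀ (i : ℤ), i ≠ 0 → ∀ (M : 𝒜) (a : (R.H i).obj M),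
    ((R.H i).map (F.app M)).hom a = a → a = 0

/-- The multiplicity of the eigenvalue `1` of the Frobenius endomorphism on `H^0(M)`: the dimension
of the generalised eigenspace. -/
def Frobenius.mult {K : Type w} [Field K] {R : Cohomology.{u, v, w, x} 𝒜 K} (F : Frobenius R)
    (M : 𝒜) : ℕ :=
  Module.finrank K (Module.End.maxGenEigenspace
    (show Module.End K ((R.H 0).obj M) from ((R.H 0).map (F.F.app M)).hom) 1)

/-- The dimension of the space of elements of `H^0(M)` which are invariant under the Frobenius
endomorphism. -/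
def Frobenius.inv {K : Type w} [Field K] {R : Cohomology.{u, v, w, x} 𝒜 K} (F : Frobenius R)
    (M : 𝒜) : ℕ :=
  Module.finrank K (Module.End.eigenspace
    (show Module.End K ((R.H 0).obj M) from ((R.H 0).map (F.F.app M)).hom) 1)

/-- The elements `z` of `Hom(1, M)` which are numerically equivalent to zero: `w ∘ z = 0` for all
`w : M ⟶ 1`. -/
def numTrivial (M : 𝒜) : Submodule ℚ (𝟙_ 𝒜 ⟶ M) where
  carrier := {z | ∀ w : M ⟶ 𝟙_ 𝒜, z ≫ w = 0}
  zero_mem' w := zero_comp
  add_mem' {a b} ha hb w := by rw [Preadditive.add_comp, ha w, hb w, add_zero]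
  smul_mem' q a ha w := by rw [Linear.smul_comp, ha w, smul_zero]

/-- The conjecture of Tate for `M`, in its strong form: the multiplicity of the eigenvalue `1` of
the Frobenius endomorphism on `H^0(M)` is at most the dimension of the space `Hom(1, M)` modulo
numerical equivalence. -/
def Frobenius.Tate {K : Type w} [Field K] {R : Cohomology.{u, v, w, x} 𝒜 K} (F : Frobenius R)
    (M : 𝒜) : Prop :=
  (F.mult M : Cardinal) ≤ Module.rank ℚ ((𝟙_ 𝒜 ⟶ M) ⧸ numTrivial M)

end

end Pool.Agent.TH90.AB
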