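import Pool.Agent.TH90.AB.Defs
import Mathlib.LinearAlgebra.Charpoly.Basic

/-!
# Purity: definitions
-/

open CategoryTheory MonoidalCategory Limits

universe u v w x

namespace Pool.Agent.TH90.AB

noncomputable section

variable {𝒜 : Type u} [Category.{v} 𝒜] [MonoidalCategory 𝒜] [BraidedCategory 𝒜]
  [hdual : ∀ X : 𝒜, HasRightDual X] [Preadditive 𝒜] [Linear ℚ 𝒜]

/-- The endomorphism of `H^i(M)` induced by an endomorphism `F` of the identity functor of `𝒜`. -/
def Cohomology.frob {K : Type w} [Field K] (R : Cohomology.{u, v, w, x} 𝒜 K) (F : 𝟭 𝒜 ⟶ 𝟭 𝒜)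
    (i : ℤ) (M : 𝒜) : Module.End K ((R.H i).obj M) :=
  ((R.H i).map (F.app M)).hom

/-- Purity, and a weak form of the Kunneth formula: for `i ≠ j` the characteristic polynomials of
the endomorphisms of `H^i(M)` and `H^j(N)` induced by `F` are coprime, for all `M` and `N`; and if
the cohomology of `M` is zero, then the cohomology of `M ⊗ N` is zero. -/
structure IsPure {K : Type w} [Field K] (R : Cohomology.{u, v, w, x} 𝒜 K) (F : 𝟭 𝒜 ⟶ 𝟭 𝒜) :
    Prop where
  coprime : ∀ i j : ℤ, i ≠ j → ∀ M N : 𝒜, haveI := R.finite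
    IsCoprime (R.frob F i M).charpoly (R.frob F j N).charpoly
  kunneth : ∀ M N : 𝒜, (∀ i, Subsingleton ((R.H i).obj M)) →
    ∀ i, Subsingleton ((R.H i).obj (M ⊗ N))

end

end Pool.Agent.TH90.AB
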