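import Mathlib.LinearAlgebra.Eigenspace.Basic
import Mathlib.LinearAlgebra.Charpoly.Basic
import Mathlib.LinearAlgebra.Trace

/-!
# Traces of powers and generalised eigenspaces
-/

open Polynomial Module

universe u v w

namespace Pool.Agent.TH90.AB

noncomputable section

variable {K : Type u} [Field K]

/-- A polynomial `P` with `P(1) = 1` which separates the eigenvalue `1` from the rest of the
spectrum of all endomorphisms annihilated by `G`. -/
lemma exists_separating (G : K[X]) (hG : G ≠ 0) : ∃ P : K[X], P.eval 1 = 1 ∧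
    (∀ (V : Type v) [AddCommGroup V] [Module K V] (φ : Module.End K V), aeval φ G = 0 →
      (∀ x, φ x = x → x = 0) → aeval φ P = 0) ∧
    (∀ (V : Type v) [AddCommGroup V] [Module K V] (φ : Module.End K V), aeval φ G = 0 →
      LinearMap.IsProj (φ.maxGenEigenspace 1) (aeval φ P)) := by
  obtain ⟨Q, hQ, hnd⟩ := exists_eq_pow_rootMultiplicity_mul_and_not_dvd G hG (1 : K)
  set n := G.rootMultiplicity 1
  have hcop : ∀ m : ℕ, IsCoprime ((X - C (1 : K)) ^ m) Q := fun m =>
    IsCoprime.pow_left (((irreducible_X_sub_C (1 : K)).coprime_iff_not_dvd).2 hnd)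
  have hval : ∀ (V : Type v) [AddCommGroup V] [Module K V] (φ : Module.End K V) (m : ℕ),
      aeval φ ((X - C (1 : K)) ^ m) = (φ - (1 : K) • 1) ^ m := by
    intro V _ _ φ m
    rw [map_pow, map_sub, aeval_X, aeval_C, Algebra.algebraMap_eq_smul_one]
  obtain ⟨a, b, hab⟩ := hcop (n + 1)
  refine ⟨b * Q, ?_, ?_, ?_⟩
  · have := congrArg (eval (1 : K)) hab
    simpa using this
  · intro V _ _ φ hφ h1
    have h2 : (φ - (1 : K) • 1) ^ n * aeval φ Q = 0 := by
      rw [← hval, ← map_mul, ← hQ, hφ]
    have h3 : ∀ (m : ℕ) (x : V), ((φ - (1 : K) • 1) ^ m) x = 0 → x = 0 := by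
      intro m
      induction m with
      | zero => intro x hx; simpa using hx
      | succ m ih =>
        intro x hx
        rw [pow_succ] at hx
        have h4 := ih _ hx
        apply h1
        simpa [sub_eq_zero] using h4
    have h5 : aeval φ Q = 0 := by
      apply LinearMap.ext
      intro x
      exact h3 n _ (LinearMap.congr_fun h2 x)
    rw [map_mul, h5, mul_zero]
  · intro V _ _ φ hφ
    have h2 : (φ - (1 : K) • 1) ^ n * aeval φ Q = 0 := by
      rw [← hval, ← map_mul, ← hQ, hφ]
    refine ⟨fun x => ?_, fun x hx => ?_⟩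
    · rw [Module.End.mem_maxGenEigenspace]
      refine ⟨n, ?_⟩
      rw [← hval, ← Module.End.mul_apply, ← map_mul]
      have e : (X - C (1 : K)) ^ n * (b * Q) = b * ((X - C 1) ^ n * Q) := by ring
      rw [e, ← hQ, map_mul, hφ, mul_zero]
      rfl
    · rw [Module.End.mem_maxGenEigenspace] at hx
      obtain ⟨k, hk⟩ := hx
      obtain ⟨c, d, hcd⟩ := hcop k
      have h4 : ((φ - (1 : K) • 1) ^ n) x = 0 := by
        have e1 : (X - C (1 : K)) ^ n = c * (X - C 1) ^ n * (X - C 1) ^ k +
            d * ((X - C 1) ^ n * Q) := by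
          calc (X - C (1 : K)) ^ n = (X - C 1) ^ n * (c * (X - C 1) ^ k + d * Q) := by
                rw [hcd, mul_one]
            _ = _ := by ring
        rw [← hval, e1, ← hQ, map_add, map_mul, map_mul (aeval φ) d, hφ, mul_zero, add_zero,
          Module.End.mul_apply, hval, hk, map_zero]
      have h5 : aeval φ (a * (X - C (1 : K)) ^ (n + 1)) x + aeval φ (b * Q) x = x := by
        rw [← LinearMap.add_apply, ← map_add, hab, map_one]
        rfl
      have h6 : aeval φ (a * (X - C (1 : K)) ^ (n + 1)) x = 0 := by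
        have e : a * (X - C (1 : K)) ^ (n + 1) = a * (X - C 1) * (X - C 1) ^ n := by ring
        rw [e, map_mul, Module.End.mul_apply, hval, h4, map_zero]
      rw [h6, zero_add] at h5
      exact h5

lemma pow_nat {V V' : Type*} [AddCommGroup V] [Module K V]
    [AddCommGroup V'] [Module K V'] (φ : Module.End K V)
    (ψ : Module.End K V') (α : V →ₗ[K] V')
    (hnat : ∀ a, α (φ a) = ψ (α a)) (k : ℕ) (a : V) : α (((φ - (1 : K) • 1) ^ k) a) =
      ((ψ - (1 : K) • 1) ^ k) (α a) := by
  induction k generalizing a with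
  | zero => simp
  | succ k ih =>
    rw [pow_succ, pow_succ, Module.End.mul_apply, Module.End.mul_apply, ih]
    congr 1
    simp [hnat]

lemma ker_le {V : Type*} [AddCommGroup V] [Module K V] [Module.Finite K V] (φ : Module.End K V)
    (W : Submodule K V) (T : W →ₗ[K] V) (hT : ∀ a, T a = φ a - a) :
    Module.finrank K (LinearMap.ker T) ≤ Module.finrank K (φ.eigenspace 1) := by
  refine LinearMap.finrank_le_finrank_of_injective (f := LinearMap.codRestrict (φ.eigenspace 1)
      (W.subtype.comp (LinearMap.ker T).subtype) fun a => ?_) ?_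
  · rw [Module.End.mem_eigenspace_iff, one_smul]
    have h2 : T a = 0 := a.2
    rw [hT] at h2
    exact sub_eq_zero.1 h2
  · intro a b h
    have h2 := congrArg Subtype.val h
    exact Subtype.ext (Subtype.ext h2)

lemma range_le {V V' : Type*} [AddCommGroup V] [Module K V] [Module.Finite K V]
    [AddCommGroup V'] [Module K V'] [Module.Finite K V'] (W : Submodule K V)
    (W' : Submodule K V') (T : W →ₗ[K] V) (α : V →ₗ[K] V') (β : V' →ₗ[K] V)
    (hT : ∀ a, T a = β (α a)) (h : ∀ a ∈ W, α a ∈ W') :
    Module.finrank K (LinearMap.range T) ≤ Module.finrank K W' := by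
  refine (Submodule.finrank_mono (t := W'.map β) ?_).trans (Submodule.finrank_map_le β W')
  rintro _ ⟨a, rfl⟩
  exact ⟨α a, h a a.2, (hT a).symm⟩

lemma mem_maxGen {V V' : Type*} [AddCommGroup V] [Module K V]
    [AddCommGroup V'] [Module K V'] (φ : Module.End K V)
    (ψ : Module.End K V') (α : V →ₗ[K] V')
    (hnat : ∀ a, α (φ a) = ψ (α a)) (a : V) (ha : a ∈ φ.maxGenEigenspace 1) :
    α a ∈ ψ.maxGenEigenspace 1 := by
  rw [Module.End.mem_maxGenEigenspace] at ha ⊢
  obtain ⟨k, hk⟩ := ha
  exact ⟨k, by rw [← pow_nat φ ψ α hnat, hk, map_zero]⟩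

/-- A bound for the generalised eigenspace of an endomorphism `φ` such that `φ - 1` factors through
a space with a compatible endomorphism `ψ`. -/
lemma finrank_maxGen_le {V V' : Type*} [AddCommGroup V] [Module K V] [Module.Finite K V]
    [AddCommGroup V'] [Module K V'] [Module.Finite K V'] (φ : Module.End K V)
    (ψ : Module.End K V') (α : V →ₗ[K] V') (β : V' →ₗ[K] V) (hβα : ∀ a, β (α a) = φ a - a)
    (hnat : ∀ a, α (φ a) = ψ (α a)) : Module.finrank K (φ.maxGenEigenspace 1) ≤
      Module.finrank K (ψ.maxGenEigenspace 1) + Module.finrank K (φ.eigenspace 1) := by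
  have h1 := range_le (φ.maxGenEigenspace 1) (ψ.maxGenEigenspace 1)
    ((β.comp α).comp (φ.maxGenEigenspace 1).subtype) α β (fun a => rfl)
    (mem_maxGen φ ψ α hnat)
  have h2 := ker_le φ (φ.maxGenEigenspace 1)
    ((β.comp α).comp (φ.maxGenEigenspace 1).subtype) (fun a => hβα a)
  have h3 := LinearMap.finrank_range_add_finrank_ker
    ((β.comp α).comp (φ.maxGenEigenspace 1).subtype)
  rw [← h3]
  exact add_le_add h1 h2

end

end Pool.Agent.TH90.AB
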