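import Pool.Agent.TH90.AB.Defs
import Pool.Agent.TH90.AB.Spec
import Mathlib.LinearAlgebra.Dimension.Constructions
import Mathlib.LinearAlgebra.Dimension.Finite
import Mathlib.LinearAlgebra.FreeModule.Finite.Basic

/-!
# The rank of `Hom(1, M)` in an abelian tensor category
-/

open CategoryTheory MonoidalCategory Limits Polynomial

universe u v w x

namespace Pool.Agent.TH90.AB

set_option linter.unusedSectionVars false
set_option linter.style.haveILetI false

noncomputable section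

section pre

variable {𝒜 : Type u} [Category.{v} 𝒜] [MonoidalCategory 𝒜] [BraidedCategory 𝒜]
  [hdual : ∀ X : 𝒜, HasRightDual X] [Preadditive 𝒜] [Linear ℚ 𝒜] {K : Type w} [Field K]

/-- Powers of an endomorphism. -/
def pw {M : 𝒜} (f : M ⟶ M) : ℕ → (M ⟶ M)
  | 0 => 𝟙 M
  | n + 1 => pw f n ≫ f

lemma pw_comp {M N : 𝒜} {f : M ⟶ M} {g : N ⟶ N} {h : M ⟶ N} (e : f ≫ h = h ≫ g) (n : ℕ) :
    pw f n ≫ h = h ≫ pw g n := by
  induction n with
  | zero => simp [pw]
  | succ n ih => rw [pw, pw, Category.assoc, e, ← Category.assoc, ih, Category.assoc]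

lemma pw_id {M : 𝒜} (n : ℕ) : pw (𝟙 M) n = 𝟙 M := by
  induction n with
  | zero => rfl
  | succ n ih => rw [pw, ih, Category.comp_id]

variable (R : Cohomology.{u, v, w, x} 𝒜 K)

/-- The action on cohomology of an endomorphism. -/
def coh (i : ℤ) {M : 𝒜} (f : M ⟶ M) : Module.End K ((R.H i).obj M) := ((R.H i).map f).hom

lemma coh_pw (i : ℤ) {M : 𝒜} (f : M ⟶ M) (n : ℕ) : coh R i (pw f n) = coh R i f ^ n := by
  induction n with
  | zero =>
    simp [coh, pw]
    rfl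
  | succ n ih =>
    rw [pow_succ', ← ih]
    simp [coh, pw, Module.End.mul_eq_comp]

/-- The alternating sum of the traces of `P(f)`, as a linear functional on polynomials. -/
def specFun {M : 𝒜} (f : M ⟶ M) : K[X] →ₗ[K] K :=
  ∑ i ∈ (R.bounded M).toFinset, (if Even i then (1 : K) else -1) •
    ((LinearMap.trace K ((R.H i).obj M)).comp (aeval (coh R i f)).toLinearMap)

lemma specFun_apply {M : 𝒜} (f : M ⟶ M) (P : K[X]) : specFun R f P =
    ∑ i ∈ (R.bounded M).toFinset, (if Even i then (1 : K) else -1) *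
      LinearMap.trace K _ (aeval (coh R i f) P) := by
  rw [specFun, LinearMap.sum_apply]
  rfl

lemma trace_zero_of_not_mem {M : 𝒜} {i : ℤ} (hi : i ∉ (R.bounded M).toFinset)
    (φ : Module.End K ((R.H i).obj M)) : LinearMap.trace K _ φ = 0 := by
  have h1 : Subsingleton ((R.H i).obj M) := by
    by_contra h
    exact hi ((R.bounded M).mem_toFinset.2 h)
  have h2 : φ = 0 := LinearMap.ext fun x => Subsingleton.elim _ _
  rw [h2, map_zero]

lemma specFun_X_pow {M : 𝒜} (f : M ⟶ M) (j : ℕ) (q : ℚ) (h : tr (pw f j) = q • 𝟙 (𝟙_ 𝒜)) :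
    specFun R f (X ^ j) = q := by
  rw [R.trace_formula M _ q h, specFun_apply]
  rw [finsum_eq_sum_of_support_subset (s := (R.bounded M).toFinset)]
  · refine Finset.sum_congr rfl fun i _ => ?_
    rw [map_pow, aeval_X, ← coh_pw]
    rfl
  · intro i hi
    by_contra h1
    apply hi
    have h2 := trace_zero_of_not_mem R (fun h3 => h1 h3) (coh R i (pw f j))
    change _ * LinearMap.trace K _ (coh R i (pw f j)) = 0
    rw [h2, mul_zero]

/-- A polynomial annihilating the action on cohomology. -/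
lemma exists_annihilator {M : 𝒜} (f : M ⟶ M) :
    ∃ G : K[X], G ≠ 0 ∧ ∀ i, aeval (coh R i f) G = 0 := by
  classical
  haveI := R.finite
  refine ⟨∏ i ∈ (R.bounded M).toFinset, (coh R i f).charpoly, ?_, fun i => ?_⟩
  · exact Finset.prod_ne_zero_iff.2 fun i _ => (LinearMap.charpoly_monic _).ne_zero
  · by_cases hi : i ∈ (R.bounded M).toFinset
    · obtain ⟨c, hc⟩ := Finset.dvd_prod_of_mem (fun i => (coh R i f).charpoly) hi
      rw [hc, map_mul, LinearMap.aeval_self_charpoly, zero_mul]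
    · have h1 : Subsingleton ((R.H i).obj M) := by
        by_contra h
        exact hi ((R.bounded M).mem_toFinset.2 h)
      exact LinearMap.ext fun x => Subsingleton.elim _ _

/-- Separation of the eigenvalue `1`. -/
lemma specFun_eq_finrank [CharZero K] {M : 𝒜} (f : M ⟶ M)
    (hf : ∀ i : ℤ, i ≠ 0 → ∀ a : (R.H i).obj M, coh R i f a = a → a = 0) {G P : K[X]}
    (hG : ∀ i, aeval (coh R i f) G = 0)
    (h1 : ∀ (V : Type x) [AddCommGroup V] [Module K V] (φ : Module.End K V), aeval φ G = 0 →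
      (∀ x, φ x = x → x = 0) → aeval φ P = 0)
    (h2 : ∀ (V : Type x) [AddCommGroup V] [Module K V] (φ : Module.End K V), aeval φ G = 0 →
      LinearMap.IsProj (φ.maxGenEigenspace 1) (aeval φ P)) :
    specFun R f P = (Module.finrank K ((coh R 0 f).maxGenEigenspace 1) : K) := by
  haveI := R.finite
  rw [specFun_apply, Finset.sum_eq_single 0]
  · rw [if_pos (by decide), one_mul]
    exact (h2 _ (coh R 0 f) (hG 0)).trace
  · intro i _ hi
    rw [h1 _ (coh R i f) (hG i) (hf i hi), map_zero, mul_zero]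
  · intro hi
    rw [trace_zero_of_not_mem R hi, mul_zero]

end pre

section main

variable {𝒜 : Type u} [Category.{v} 𝒜] [MonoidalCategory 𝒜] [BraidedCategory 𝒜]
  [hdual : ∀ X : 𝒜, HasRightDual X] [Abelian 𝒜] [MonoidalPreadditive 𝒜] [Linear ℚ 𝒜]
  {K : Type w} [Field K] [CharZero K] {R : Cohomology.{u, v, w, x} 𝒜 K} (F : Frobenius R)

lemma specFun_add (hunit : ∀ f : 𝟙_ 𝒜 ⟶ 𝟙_ 𝒜, ∃ q : ℚ, f = q • 𝟙 (𝟙_ 𝒜))
    (hne : 𝟙 (𝟙_ 𝒜) ≠ 0) {A E C : 𝒜} {u : A ⟶ E} {v : E ⟶ C} [Mono u] [Epi v]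
    (huv : u ≫ v = 0) (hk : KernelOf u v) {a : A ⟶ A} {f : E ⟶ E} {c : C ⟶ C}
    (hu : a ≫ u = u ≫ f) (hv : f ≫ v = v ≫ c) (P : K[X]) :
    specFun R f P = specFun R a P + specFun R c P := by
  induction P using Polynomial.induction_on' with
  | add p q hp hq => rw [map_add, map_add, map_add, hp, hq]; ring
  | monomial n s =>
    have h1 : monomial n s = s • (X : K[X]) ^ n := by
      rw [← C_mul_X_pow_eq_monomial, ← smul_eq_C_mul]
    obtain ⟨q, hq⟩ := hunit (tr (pw f n))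
    obtain ⟨r, hr⟩ := hunit (tr (pw c n))
    obtain ⟨p, hp⟩ := hunit (tr (pw a n))
    have h2 : tr (pw f n) = tr (pw a n) + tr (pw c n) :=
      tr_add huv hk (pw_comp hu n) (pw_comp hv n)
    rw [hq, hr, hp] at h2
    have h4 : q = p + r := by
      have h5 : (q - (p + r)) • 𝟙 (𝟙_ 𝒜) = 0 := by
        rw [sub_smul, add_smul, h2, sub_self]
      rcases smul_eq_zero.1 h5 with h6 | h6
      · exact sub_eq_zero.1 h6
      · exact absurd h6 hne
    rw [h1, map_smul, map_smul, map_smul, specFun_X_pow R f n q hq, specFun_X_pow R c n r hr,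
      specFun_X_pow R a n p hp, h4]
    simp
    ring

/-- The Frobenius endomorphism of `M`. -/
def Frobenius.fr (M : 𝒜) : M ⟶ M := F.F.app M

lemma fr_nat {M N : 𝒜} (f : M ⟶ N) : F.fr M ≫ f = f ≫ F.fr N := (F.F.naturality f).symm

lemma fr_unit : F.fr (𝟙_ 𝒜) = 𝟙 (𝟙_ 𝒜) := F.unit

lemma isIso_or_zero (hunit : ∀ f : 𝟙_ 𝒜 ⟶ 𝟙_ 𝒜, ∃ q : ℚ, f = q • 𝟙 (𝟙_ 𝒜))
    (f : 𝟙_ 𝒜 ⟶ 𝟙_ 𝒜) : f = 0 ∨ IsIso f := by
  obtain ⟨q, rfl⟩ := hunit f
  by_cases hq : q = 0
  · left; rw [hq, zero_smul]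
  · right
    refine ⟨q⁻¹ • 𝟙 _, ?_, ?_⟩
    · simp [smul_smul, hq]
    · simp [smul_smul, hq]

/-- The multiplicity is additive in short exact sequences. -/
lemma mult_add (hunit : ∀ f : 𝟙_ 𝒜 ⟶ 𝟙_ 𝒜, ∃ q : ℚ, f = q • 𝟙 (𝟙_ 𝒜))
    (hne : 𝟙 (𝟙_ 𝒜) ≠ 0) {A E C : 𝒜} {u : A ⟶ E} {v : E ⟶ C} [Mono u] [Epi v]
    (huv : u ≫ v = 0) (hk : KernelOf u v) : F.mult E = F.mult A + F.mult C := by
  obtain ⟨G₁, hG₁, hG₁'⟩ := exists_annihilator R (M := E) (F.F.app E)
  obtain ⟨G₂, hG₂, hG₂'⟩ := exists_annihilator R (M := C) (F.F.app C)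
  obtain ⟨G₃, hG₃, hG₃'⟩ := exists_annihilator R (M := A) (F.F.app A)
  obtain ⟨P, hP1, hP2, hP3⟩ := exists_separating.{w, x} (G₁ * G₂ * G₃)
    (mul_ne_zero (mul_ne_zero hG₁ hG₂) hG₃)
  have e1 := specFun_eq_finrank R (M := E) (F.F.app E) (fun i hi a ha => F.weights i hi E a ha)
    (G := G₁ * G₂ * G₃) (P := P) (fun i => by rw [map_mul, map_mul, hG₁', zero_mul, zero_mul])
    hP2 hP3
  have e2 := specFun_eq_finrank R (M := C) (F.F.app C) (fun i hi a ha => F.weights i hi C a ha)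
    (G := G₁ * G₂ * G₃) (P := P) (fun i => by rw [map_mul, map_mul, hG₂', mul_zero, zero_mul])
    hP2 hP3
  have e0 := specFun_eq_finrank R (M := A) (F.F.app A) (fun i hi a ha => F.weights i hi A a ha)
    (G := G₁ * G₂ * G₃) (P := P) (fun i => by rw [map_mul, hG₃', mul_zero]) hP2 hP3
  have hnat : F.F.app A ≫ u = u ≫ F.F.app E := (F.F.naturality u).symm
  have hnat' : F.F.app E ≫ v = v ≫ F.F.app C := (F.F.naturality v).symm
  have e3 := specFun_add (R := R) hunit hne huv hk (a := F.F.app A) (f := F.F.app E)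
    (c := F.F.app C) hnat hnat' P
  rw [e1, e2, e0] at e3
  have e4 : ((F.mult E : ℕ) : K) = ((F.mult A + F.mult C : ℕ) : K) := by
    push_cast
    exact e3
  exact_mod_cast e4

/-- The multiplicity of the unit object is one. -/
lemma mult_unit : F.mult (𝟙_ 𝒜) = 1 := by
  obtain ⟨G₁, hG₁, hG₁'⟩ := exists_annihilator R (M := 𝟙_ 𝒜) (𝟙 (𝟙_ 𝒜))
  obtain ⟨P, hP1, hP2, hP3⟩ := exists_separating.{w, x} G₁ hG₁
  have e1 := specFun_eq_finrank R (M := 𝟙_ 𝒜) (𝟙 (𝟙_ 𝒜)) (fun i hi a ha => by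
    have h := F.weights i hi (𝟙_ 𝒜) a
    rw [F.unit] at h
    exact h ha) (G := G₁) (P := P) hG₁' hP2 hP3
  have e2 : ∀ P : K[X], specFun R (𝟙 (𝟙_ 𝒜)) P = P.eval 1 := by
    intro P
    induction P using Polynomial.induction_on' with
    | add p q hp hq => rw [map_add, hp, hq, eval_add]
    | monomial n s =>
      have h1 : monomial n s = s • (X : K[X]) ^ n := by
        rw [← C_mul_X_pow_eq_monomial, ← smul_eq_C_mul]
      have h2 := specFun_X_pow R (𝟙 (𝟙_ 𝒜)) n 1 (by rw [pw_id, tr_id_unit, one_smul])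
      rw [h1, map_smul, h2]
      simp
  rw [e2, hP1] at e1
  have e3 : F.mult (𝟙_ 𝒜) = Module.finrank K ((coh R 0 (𝟙 (𝟙_ 𝒜))).maxGenEigenspace 1) := by
    unfold Frobenius.mult coh
    rw [F.unit]
  rw [e3]
  exact_mod_cast e1.symm

/-- The multiplicity drops by one when we divide by a non-zero morphism from the unit object. -/
lemma mult_exact (hunit : ∀ f : 𝟙_ 𝒜 ⟶ 𝟙_ 𝒜, ∃ q : ℚ, f = q • 𝟙 (𝟙_ 𝒜))
    (hne : 𝟙 (𝟙_ 𝒜) ≠ 0) {E C : 𝒜} {u : 𝟙_ 𝒜 ⟶ E} {v : E ⟶ C} [Mono u] [Epi v]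
    (huv : u ≫ v = 0) (hk : KernelOf u v) : F.mult E = F.mult C + 1 := by
  rw [mult_add F hunit hne huv hk, mult_unit F, add_comm]

/-- In the abelian case the dimension of `Hom(1, M)` is at most the multiplicity of the eigenvalue
`1` of the Frobenius endomorphism on `H^0(M)`. -/
theorem rank_le (hunit : ∀ f : 𝟙_ 𝒜 ⟶ 𝟙_ 𝒜, ∃ q : ℚ, f = q • 𝟙 (𝟙_ 𝒜))
    (hne : 𝟙 (𝟙_ 𝒜) ≠ 0) (M : 𝒜) : Module.rank ℚ (𝟙_ 𝒜 ⟶ M) ≤ F.mult M := by
  obtain ⟨n, hn⟩ : ∃ n, F.mult M = n := ⟨_, rfl⟩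
  induction n generalizing M with
  | zero =>
    by_cases h : ∀ z : 𝟙_ 𝒜 ⟶ M, z = 0
    · haveI : Subsingleton (𝟙_ 𝒜 ⟶ M) := ⟨fun a b => by rw [h a, h b]⟩
      rw [rank_subsingleton']
      exact zero_le
    · push Not at h
      obtain ⟨z, hz⟩ := h
      haveI := mono_of_ne_zero (isIso_or_zero hunit) z hz
      have h1 := mult_exact F hunit hne (u := z) (v := cokernel.π z) (cokernel.condition z)
        (fun t ht => ⟨Abelian.monoLift z t ht, Abelian.monoLift_comp z t ht⟩)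
      omega
  | succ n ih =>
    by_cases h : ∀ z : 𝟙_ 𝒜 ⟶ M, z = 0
    · haveI : Subsingleton (𝟙_ 𝒜 ⟶ M) := ⟨fun a b => by rw [h a, h b]⟩
      rw [rank_subsingleton']
      exact zero_le
    · push Not at h
      obtain ⟨z, hz⟩ := h
      haveI := mono_of_ne_zero (isIso_or_zero hunit) z hz
      have hk : KernelOf z (cokernel.π z) :=
        fun t ht => ⟨Abelian.monoLift z t ht, Abelian.monoLift_comp z t ht⟩
      have h1 := mult_exact F hunit hne (u := z) (v := cokernel.π z) (cokernel.condition z) hk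
      have h2 := ih (cokernel z) (by omega)
      let g : (𝟙_ 𝒜 ⟶ M) →ₗ[ℚ] (𝟙_ 𝒜 ⟶ cokernel z) :=
        { toFun := fun a => a ≫ cokernel.π z
          map_add' := fun a b => Preadditive.add_comp _ _ _ _ _ _
          map_smul' := fun q a => Linear.smul_comp _ _ _ _ _ _ }
      have h3 : LinearMap.ker g ≤ Submodule.span ℚ {z} := by
        intro a ha
        obtain ⟨s, hs⟩ := hk a ha
        obtain ⟨q, rfl⟩ := hunit s
        rw [Submodule.mem_span_singleton]
        exact ⟨q, by rw [← hs, Linear.smul_comp, Category.id_comp]⟩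
      have h4 : Module.rank ℚ (LinearMap.ker g) ≤ 1 :=
        (Submodule.rank_mono h3).trans (rank_span_le _ |>.trans (by simp))
      have h5 := LinearMap.rank_range_add_rank_ker g
      have h6 : Module.rank ℚ (LinearMap.range g) ≤ F.mult (cokernel z) :=
        (Submodule.rank_le _).trans h2
      rw [← h5, h1]
      push_cast
      exact add_le_add h6 h4

/-- The dimension of the space of invariants of the Frobenius endomorphism on `H^0(M)`. -/
lemma mult_kernel_le (hunit : ∀ f : 𝟙_ 𝒜 ⟶ 𝟙_ 𝒜, ∃ q : ℚ, f = q • 𝟙 (𝟙_ 𝒜))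
    (hne : 𝟙 (𝟙_ 𝒜) ≠ 0) (M : 𝒜) :
    F.mult (kernel (F.fr M - 𝟙 M)) ≤ F.inv M := by
  haveI := R.finite
  haveI := R.additive 0
  let N : M ⟶ M := F.fr M - 𝟙 M
  let I : 𝒜 := cokernel (kernel.ι N)
  let p : M ⟶ I := cokernel.π (kernel.ι N)
  let ι : I ⟶ M := cokernel.desc (kernel.ι N) N (kernel.condition N)
  have hpι : p ≫ ι = N := cokernel.π_desc _ _ _
  have h1 : F.mult M = F.mult (kernel N) + F.mult I :=
    mult_add F hunit hne (u := kernel.ι N) (v := p) (cokernel.condition _)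
      (fun t ht => ⟨Abelian.monoLift _ t ht, Abelian.monoLift_comp _ t ht⟩)
  -- linear algebra on `H^0(M)`
  let φ : Module.End K ((R.H 0).obj M) := ((R.H 0).map (F.fr M)).hom
  let ψ : Module.End K ((R.H 0).obj I) := ((R.H 0).map (F.fr I)).hom
  let α : (R.H 0).obj M →ₗ[K] (R.H 0).obj I := ((R.H 0).map p).hom
  let β : (R.H 0).obj I →ₗ[K] (R.H 0).obj M := ((R.H 0).map ι).hom
  have hβα : ∀ a, β (α a) = φ a - a := by
    intro a
    have h2 : ((R.H 0).map (p ≫ ι)).hom a = ((R.H 0).map N).hom a := by rw [hpι]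
    rw [Functor.map_comp, ModuleCat.hom_comp] at h2
    have h3 : (R.H 0).map N = (R.H 0).map (F.fr M) - (R.H 0).map (𝟙 M) :=
      Functor.map_sub _
    rw [h3, CategoryTheory.Functor.map_id] at h2
    exact h2
  have hnat : ∀ a, α (φ a) = ψ (α a) := by
    intro a
    have h2 : p ≫ F.fr I = F.fr M ≫ p := (fr_nat F p).symm
    have h3 : ((R.H 0).map (F.fr M ≫ p)).hom a = ((R.H 0).map (p ≫ F.fr I)).hom a := by
      rw [h2]
    rw [Functor.map_comp, Functor.map_comp] at h3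
    exact h3
  have h4 := finrank_maxGen_le φ ψ α β hβα hnat
  have e1 : F.mult M = Module.finrank K (φ.maxGenEigenspace 1) := rfl
  have e2 : F.mult I = Module.finrank K (ψ.maxGenEigenspace 1) := rfl
  have e3 : F.inv M = Module.finrank K (φ.eigenspace 1) := rfl
  rw [← e1, ← e2, ← e3] at h4
  change F.mult (kernel N) ≤ F.inv M
  omega

/-- In the abelian case the dimension of `Hom(1, M)` is at most the dimension of the space of
invariants of the Frobenius endomorphism on `H^0(M)`. -/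
theorem rank_le_inv (hunit : ∀ f : 𝟙_ 𝒜 ⟶ 𝟙_ 𝒜, ∃ q : ℚ, f = q • 𝟙 (𝟙_ 𝒜))
    (hne : 𝟙 (𝟙_ 𝒜) ≠ 0) (M : 𝒜) : Module.rank ℚ (𝟙_ 𝒜 ⟶ M) ≤ F.inv M := by
  let N : M ⟶ M := F.fr M - 𝟙 M
  have h1 : ∀ z : 𝟙_ 𝒜 ⟶ M, z ≫ N = 0 := by
    intro z
    have h2 : z ≫ F.fr M = F.fr (𝟙_ 𝒜) ≫ z := (fr_nat F z).symm
    rw [fr_unit] at h2
    simp only [N, Preadditive.comp_sub, h2]
    simp
  let g : (𝟙_ 𝒜 ⟶ M) →ₗ[ℚ] (𝟙_ 𝒜 ⟶ kernel N) :=
    { toFun := fun z => kernel.lift N z (h1 z)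
      map_add' := fun a b => by
        rw [← cancel_mono (kernel.ι N)]
        simp
      map_smul' := fun q a => by
        rw [← cancel_mono (kernel.ι N)]
        simp }
  have h2 : Function.Injective g := by
    intro a b h
    have h3 : g a ≫ kernel.ι N = g b ≫ kernel.ι N := by rw [h]
    simpa [g] using h3
  refine (LinearMap.rank_le_of_injective g h2).trans ((rank_le F hunit hne _).trans ?_)
  exact_mod_cast mult_kernel_le F hunit hne M

end main

end

end Pool.Agent.TH90.AB
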