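import Pool.Agent.TH90.AB.Main
import Mathlib.CategoryTheory.Idempotents.Basic
import Mathlib.RingTheory.Artinian.Ring
import Mathlib.RingTheory.Artinian.Module
import Mathlib.RingTheory.SimpleModule.Basic
import Mathlib.LinearAlgebra.FiniteDimensional.Lemmas
import Mathlib.CategoryTheory.Limits.Shapes.Biproducts

/-!
# Numerical equivalence and semisimplicity
-/

open CategoryTheory MonoidalCategory Limits Polynomial BraidedCategory

universe u v w x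

namespace Pool.Agent.TH90.AB

set_option linter.unusedSectionVars false
set_option linter.style.haveILetI false

noncomputable section

variable {𝒜 : Type u} [Category.{v} 𝒜] [MonoidalCategory 𝒜] [BraidedCategory 𝒜]
  [hdual : ∀ X : 𝒜, HasRightDual X] [Preadditive 𝒜] [MonoidalPreadditive 𝒜] [Linear ℚ 𝒜]
  [MonoidalLinear ℚ 𝒜] {K : Type w} [Field K] [CharZero K] (R : Cohomology.{u, v, w, x} 𝒜 K)

lemma nm_smul {M N : 𝒜} (q : ℚ) (f : M ⟶ N) : nm (q • f) = q • nm f := by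
  simp [nm, MonoidalLinear.smul_whiskerRight]

lemma nm_add {M N : 𝒜} (f g : M ⟶ N) : nm (f + g) = nm f + nm g := by
  simp [nm, MonoidalPreadditive.add_whiskerRight]

lemma tr_smul {M : 𝒜} (q : ℚ) (f : M ⟶ M) : tr (q • f) = q • tr f := by
  rw [tr_eq_nm, tr_eq_nm, nm_smul, Linear.smul_comp]

/-- The linear isomorphism of `ℚ` with the endomorphisms of the unit object. -/
def scal (hunit : ∀ f : 𝟙_ 𝒜 ⟶ 𝟙_ 𝒜, ∃ q : ℚ, f = q • 𝟙 (𝟙_ 𝒜)) (hne : 𝟙 (𝟙_ 𝒜) ≠ 0) :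
    ℚ ≃ₗ[ℚ] (𝟙_ 𝒜 ⟶ 𝟙_ 𝒜) :=
  LinearEquiv.ofBijective (LinearMap.toSpanSingleton ℚ _ (𝟙 (𝟙_ 𝒜)))
    ⟨fun a b h => by
      have h1 : (a - b) • 𝟙 (𝟙_ 𝒜) = 0 := by
        have h2 : a • 𝟙 (𝟙_ 𝒜) = b • 𝟙 (𝟙_ 𝒜) := h
        rw [sub_smul, h2, sub_self]
      rcases smul_eq_zero.1 h1 with h6 | h6
      · exact sub_eq_zero.1 h6
      · exact absurd h6 hne, fun f => by
      obtain ⟨q, rfl⟩ := hunit f
      exact ⟨q, rfl⟩⟩

lemma scal_apply (hunit : ∀ f : 𝟙_ 𝒜 ⟶ 𝟙_ 𝒜, ∃ q : ℚ, f = q • 𝟙 (𝟙_ 𝒜))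
    (hne : 𝟙 (𝟙_ 𝒜) ≠ 0) (q : ℚ) : scal hunit hne q = q • 𝟙 (𝟙_ 𝒜) := rfl

include R in
/-- If numerically trivial elements vanish, the spaces `Hom(1, M)` are finite-dimensional. -/
lemma finite_of_num (hunit : ∀ f : 𝟙_ 𝒜 ⟶ 𝟙_ 𝒜, ∃ q : ℚ, f = q • 𝟙 (𝟙_ 𝒜))
    (hne : 𝟙 (𝟙_ 𝒜) ≠ 0) (M : 𝒜) (hnum : ∀ z : 𝟙_ 𝒜 ⟶ M, z ∈ numTrivial M → z = 0) :
    Module.Finite ℚ (𝟙_ 𝒜 ⟶ M) := by
  classical
  haveI := R.finite
  let T : Finset ℤ := (R.bounded (𝟙_ 𝒜)).toFinset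
  let V := ∀ i : T, ((R.H i).obj M →ₗ[K] (R.H i).obj (𝟙_ 𝒜))
  let L : (M ⟶ 𝟙_ 𝒜) → V := fun w i => ((R.H i).map w).hom
  obtain ⟨b, hb, hbs, hbli⟩ := exists_linearIndependent K (Set.range L)
  haveI hbf : Finite b := hbli.finite
  choose w hw using fun x : b => hb x.2
  let Φ : (𝟙_ 𝒜 ⟶ M) →ₗ[ℚ] (b → ℚ) := LinearMap.pi fun x =>
    (scal hunit hne).symm.toLinearMap ∘ₗ
      { toFun := fun z => z ≫ w x
        map_add' := fun a b => Preadditive.add_comp _ _ _ _ _ _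
        map_smul' := fun q a => Linear.smul_comp _ _ _ _ _ _ }
  have hinj : Function.Injective Φ := by
    rw [← LinearMap.ker_eq_bot, LinearMap.ker_eq_bot']
    intro z hz
    apply hnum
    have h1 : ∀ x : b, z ≫ w x = 0 := by
      intro x
      have h2 : (scal hunit hne).symm (z ≫ w x) = 0 := congrFun hz x
      exact (LinearEquiv.map_eq_zero_iff _).1 h2
    -- the functional attached to `z`
    let ψ : V →ₗ[K] K := ∑ i : T, (if Even (i : ℤ) then (1 : K) else -1) •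
      ((LinearMap.trace K ((R.H i).obj (𝟙_ 𝒜))).comp
        ((LinearMap.lcomp K _ ((R.H i).map z).hom).comp (LinearMap.proj i)))
    have hψ : ∀ (w : M ⟶ 𝟙_ 𝒜) (q : ℚ), z ≫ w = q • 𝟙 (𝟙_ 𝒜) → ψ (L w) = q := by
      intro w q hq
      have h3 : tr (z ≫ w) = q • 𝟙 (𝟙_ 𝒜) := by rw [hq, tr_smul, tr_id_unit]
      rw [R.trace_formula _ _ q h3]
      rw [finsum_eq_sum_of_support_subset (s := T)]
      · rw [← Finset.sum_coe_sort T]
        simp only [ψ, LinearMap.sum_apply]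
        refine Finset.sum_congr rfl fun i _ => ?_
        simp only [LinearMap.smul_apply, LinearMap.comp_apply, L,
          LinearMap.lcomp_apply', Functor.map_comp, ModuleCat.hom_comp, smul_eq_mul]
        rfl
      · intro i hi
        by_contra h4
        apply hi
        have h5 := trace_zero_of_not_mem R (M := 𝟙_ 𝒜) (fun h6 => h4 h6) (coh R i (z ≫ w))
        change _ * LinearMap.trace K _ (coh R i (z ≫ w)) = 0
        rw [h5, mul_zero]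
    have h4 : Submodule.span K b ≤ LinearMap.ker ψ := by
      rw [Submodule.span_le]
      intro y hy
      have h5 := hψ (w ⟨y, hy⟩) 0 (by rw [h1, zero_smul])
      rw [hw] at h5
      simpa using h5
    intro w'
    obtain ⟨q, hq⟩ := hunit (z ≫ w')
    have h6 : L w' ∈ Submodule.span K b := by
      rw [hbs]
      exact Submodule.subset_span ⟨w', rfl⟩
    have h7 : ψ (L w') = 0 := h4 h6
    rw [hψ w' q hq] at h7
    rw [hq, Rat.cast_eq_zero.1 h7, zero_smul]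
  exact Module.Finite.of_injective Φ hinj

lemma finite_hom (hfin : ∀ M : 𝒜, Module.Finite ℚ (𝟙_ 𝒜 ⟶ M)) (M N : 𝒜) :
    Module.Finite ℚ (M ⟶ N) := by
  haveI := hfin (N ⊗ Mᘁ)
  exact Module.Finite.of_injective
    ({ toFun := fun f => nm f
       map_add' := nm_add
       map_smul' := nm_smul } : (M ⟶ N) →ₗ[ℚ] (𝟙_ 𝒜 ⟶ N ⊗ Mᘁ)) fun _ _ h => nm_injective h

/-- Functionals on `M ⊗ M^∨` come from endomorphisms of `M`. -/
lemma exists_transpose {M N : 𝒜} (w : N ⊗ Mᘁ ⟶ 𝟙_ 𝒜) : ∃ g : N ⟶ M, w = g ▷ Mᘁ ≫ ev M := by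
  letI : ExactPairing Mᘁ M := exactPairing_swap M Mᘁ
  refine ⟨tensorRightHomEquiv N Mᘁ M (𝟙_ 𝒜) w ≫ (λ_ M).hom, ?_⟩
  have h := ((tensorRightHomEquiv N Mᘁ M (𝟙_ 𝒜)).symm_apply_apply w).symm
  set g := tensorRightHomEquiv N Mᘁ M (𝟙_ 𝒜) w
  rw [h]
  have h2 : (tensorRightHomEquiv N Mᘁ M (𝟙_ 𝒜)).symm g = g ▷ Mᘁ ≫ (α_ (𝟙_ 𝒜) M Mᘁ).hom ≫
    𝟙_ 𝒜 ◁ ev M ≫ (ρ_ (𝟙_ 𝒜)).hom := rfl
  rw [h2, comp_whiskerRight, Category.assoc]
  congr 1
  have e : (λ_ (𝟙_ 𝒜)).inv ≫ (ρ_ (𝟙_ 𝒜)).hom = 𝟙 _ := by monoidal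
  simp [e]

lemma zero_of_trace (hnum : ∀ (M : 𝒜) (z : 𝟙_ 𝒜 ⟶ M), z ∈ numTrivial M → z = 0) {M : 𝒜}
    (f : M ⟶ M) (hf : ∀ g : M ⟶ M, tr (f ≫ g) = 0) : f = 0 := by
  apply nm_injective
  have h0 : nm (0 : M ⟶ M) = 0 := by simp [nm]
  rw [h0]
  apply hnum
  intro w
  obtain ⟨g, rfl⟩ := exists_transpose w
  rw [← Category.assoc, ← nm_comp, ← tr_eq_nm, hf]

include R in
/-- The trace of a nilpotent endomorphism vanishes. -/
lemma tr_nilpotent (hunit : ∀ f : 𝟙_ 𝒜 ⟶ 𝟙_ 𝒜, ∃ q : ℚ, f = q • 𝟙 (𝟙_ 𝒜)) {M : 𝒜} (f : M ⟶ M)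
    (n : ℕ) (hf : pw f n = 0) : tr f = 0 := by
  haveI := R.finite
  obtain ⟨q, hq⟩ := hunit (tr f)
  have h1 := R.trace_formula M f q hq
  have h2 : (q : K) = 0 := by
    rw [h1]
    apply finsum_eq_zero_of_forall_eq_zero
    intro i
    have h3 : IsNilpotent (coh R i f) := by
      refine ⟨n, ?_⟩
      rw [← coh_pw, hf]
      haveI := R.additive i
      simp [coh]
    have h4 := (LinearMap.isNilpotent_trace_of_isNilpotent h3).eq_zero
    change _ * LinearMap.trace K _ (coh R i f) = 0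
    rw [h4, mul_zero]
  rw [hq, Rat.cast_eq_zero.1 h2, zero_smul]

lemma pow_eq_pw {M : 𝒜} (f : End M) (n : ℕ) : f ^ n = pw (M := M) f n := by
  induction n with
  | zero => rfl
  | succ n ih =>
    rw [pow_succ', ih]
    rfl

include R in
/-- If numerically trivial elements vanish, all morphisms are von Neumann regular. -/
lemma regular_of_num (hunit : ∀ f : 𝟙_ 𝒜 ⟶ 𝟙_ 𝒜, ∃ q : ℚ, f = q • 𝟙 (𝟙_ 𝒜))
    (hne : 𝟙 (𝟙_ 𝒜) ≠ 0) [HasBinaryBiproducts 𝒜]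
    (hnum : ∀ (M : 𝒜) (z : 𝟙_ 𝒜 ⟶ M), z ∈ numTrivial M → z = 0) {M N : 𝒜} (f : M ⟶ N) :
    ∃ g : N ⟶ M, f ≫ g ≫ f = f := by
  have key : ∀ (M : 𝒜) (f : M ⟶ M), ∃ g : M ⟶ M, f ≫ g ≫ f = f := by
    intro M f
    haveI : Module.Finite ℚ (End M) :=
      finite_hom (fun M => finite_of_num R hunit hne M (hnum M)) M M
    haveI : IsArtinianRing (End M) := IsArtinianRing.of_finite ℚ (End M)
    have hJ : Ring.jacobson (End M) = ⊥ := by
      rw [eq_bot_iff]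
      intro a ha
      rw [Submodule.mem_bot]
      refine zero_of_trace hnum (M := M) a fun g => ?_
      obtain ⟨n, hn⟩ := IsSemiprimaryRing.isNilpotent (R := End M)
      have h1 : ((show End M from g) * a) ∈ Ring.jacobson (End M) := Ideal.mul_mem_left _ _ ha
      have h2 : ((show End M from g) * a) ^ n = 0 := by
        have h3 := Ideal.pow_mem_pow h1 n
        rw [hn] at h3
        exact h3
      refine tr_nilpotent R hunit (a ≫ g) n ?_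
      rw [pow_eq_pw] at h2
      exact h2
    haveI : IsSemisimpleRing (End M) := IsArtinianRing.isSemisimpleRing_iff_jacobson.2 hJ
    obtain ⟨e, he, hI⟩ := IsSemisimpleRing.ideal_eq_span_idempotent
      (Ideal.span {(show End M from f)})
    have h1 : (show End M from f) ∈ Ideal.span {e} := hI ▸ Ideal.mem_span_singleton_self _
    have h2 : e ∈ Ideal.span {(show End M from f)} := hI ▸ Ideal.mem_span_singleton_self _
    obtain ⟨a, ha⟩ := Ideal.mem_span_singleton'.1 h1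
    obtain ⟨b, hb⟩ := Ideal.mem_span_singleton'.1 h2
    refine ⟨b, ?_⟩
    have h3 : (show End M from f) * (b * (show End M from f)) = (show End M from f) := by
      rw [hb, ← ha, mul_assoc, he]
    rw [← mul_assoc] at h3
    exact h3
  obtain ⟨ψ, hψ⟩ := key (M ⊞ N) (biprod.fst ≫ f ≫ biprod.inr)
  refine ⟨biprod.inr ≫ ψ ≫ biprod.fst, ?_⟩
  have h := congrArg (fun t => biprod.inl ≫ t ≫ biprod.snd) hψ
  simpa using h

end

end Pool.Agent.TH90.AB
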