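import Pool.Agent.TH90.AB.DefsPure
import Pool.Agent.TH90.AB.Semi

/-!
# Additivity of Betti numbers and conservativity in abelian tensor categories
-/

open CategoryTheory MonoidalCategory Limits Polynomial

universe u v w x

namespace Pool.Agent.TH90.AB

set_option linter.unusedSectionVars false
set_option linter.style.haveILetI false

noncomputable section

variable {𝒜 : Type u} [Category.{v} 𝒜] [MonoidalCategory 𝒜] [BraidedCategory 𝒜]
  [hdual : ∀ X : 𝒜, HasRightDual X] [Abelian 𝒜] [MonoidalPreadditive 𝒜] [Linear ℚ 𝒜]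
  {K : Type w} [Field K] [CharZero K] {R : Cohomology.{u, v, w, x} 𝒜 K}

lemma exists_proj {G G' : K[X]} (h : IsCoprime G G') : ∃ P : K[X],
    (∀ (V : Type x) [AddCommGroup V] [Module K V] (φ : Module.End K V), aeval φ G = 0 →
      aeval φ P = 1) ∧
    (∀ (V : Type x) [AddCommGroup V] [Module K V] (φ : Module.End K V), aeval φ G' = 0 →
      aeval φ P = 0) := by
  obtain ⟨a, b, hab⟩ := h
  refine ⟨b * G', fun V _ _ φ hφ => ?_, fun V _ _ φ hφ => by rw [map_mul, hφ, mul_zero]⟩
  have h1 := congrArg (aeval φ) hab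
  rw [map_add, map_mul, hφ, mul_zero, zero_add, map_one] at h1
  exact h1

/-- The Betti numbers are additive in short exact sequences. -/
lemma betti_add {F : 𝟭 𝒜 ⟶ 𝟭 𝒜} (hF : IsPure R F)
    (hunit : ∀ f : 𝟙_ 𝒜 ⟶ 𝟙_ 𝒜, ∃ q : ℚ, f = q • 𝟙 (𝟙_ 𝒜))
    (hne : 𝟙 (𝟙_ 𝒜) ≠ 0) {A E C : 𝒜} {u : A ⟶ E} {v : E ⟶ C} [Mono u] [Epi v]
    (huv : u ≫ v = 0) (hk : KernelOf u v) (i : ℤ) :
    Module.finrank K ((R.H i).obj E) = Module.finrank K ((R.H i).obj A) +
      Module.finrank K ((R.H i).obj C) := by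
  classical
  haveI := R.finite
  let g : 𝒜 → K[X] := fun M => (R.frob F i M).charpoly
  let g' : 𝒜 → K[X] := fun M => ∏ j ∈ (R.bounded M).toFinset.erase i, (R.frob F j M).charpoly
  have hcop : ∀ M N, IsCoprime (g M) (g' N) := fun M N =>
    IsCoprime.prod_right fun j hj => hF.coprime i j (Finset.ne_of_mem_erase hj).symm M N
  obtain ⟨P, hP1, hP2⟩ := exists_proj.{w, x} (K := K) (G := g A * g E * g C)
    (G' := g' A * g' E * g' C)
    (IsCoprime.mul_left (IsCoprime.mul_left
      (IsCoprime.mul_right (IsCoprime.mul_right (hcop _ _) (hcop _ _)) (hcop _ _))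
      (IsCoprime.mul_right (IsCoprime.mul_right (hcop _ _) (hcop _ _)) (hcop _ _)))
      (IsCoprime.mul_right (IsCoprime.mul_right (hcop _ _) (hcop _ _)) (hcop _ _)))
  have key : ∀ M : 𝒜, g M ∣ g A * g E * g C → g' M ∣ g' A * g' E * g' C →
      specFun R (M := M) (F.app M) P = (if Even i then (1 : K) else -1) *
        (Module.finrank K ((R.H i).obj M) : K) := by
    intro M hM hM'
    have hi : aeval (coh R i (M := M) (F.app M)) P = 1 := by
      apply hP1
      obtain ⟨c, hc⟩ := hM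
      rw [hc, map_mul]
      have h1 : aeval (R.frob F i M) (g M) = 0 := LinearMap.aeval_self_charpoly _
      change aeval (R.frob F i M) (g M) * _ = 0
      rw [h1, zero_mul]
    rw [specFun_apply]
    by_cases hi' : i ∈ (R.bounded M).toFinset
    · rw [Finset.sum_eq_single i]
      · rw [hi]
        congr 1
        exact LinearMap.trace_one K _
      · intro j hj hji
        have h2 : aeval (coh R j (M := M) (F.app M)) P = 0 := by
          apply hP2
          obtain ⟨c, hc⟩ := hM'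
          rw [hc, map_mul]
          have h1 : aeval (R.frob F j M) (g' M) = 0 := by
            obtain ⟨d, hd⟩ := Finset.dvd_prod_of_mem (fun j => (R.frob F j M).charpoly)
              (Finset.mem_erase.2 ⟨hji, hj⟩)
            change aeval (R.frob F j M) (∏ j ∈ (R.bounded M).toFinset.erase i,
              (R.frob F j M).charpoly) = 0
            rw [hd, map_mul, LinearMap.aeval_self_charpoly, zero_mul]
          change aeval (R.frob F j M) (g' M) * _ = 0
          rw [h1, zero_mul]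
        rw [h2, map_zero, mul_zero]
      · intro h; exact absurd hi' h
    · have hs : Subsingleton ((R.H i).obj M) := by
        by_contra h
        exact hi' ((R.bounded M).mem_toFinset.2 h)
      rw [Module.finrank_zero_of_subsingleton]
      rw [Nat.cast_zero, mul_zero]
      refine Finset.sum_eq_zero fun j hj => ?_
      have hji : j ≠ i := fun h => hi' (h ▸ hj)
      have h2 : aeval (coh R j (M := M) (F.app M)) P = 0 := by
        apply hP2
        obtain ⟨c, hc⟩ := hM'
        rw [hc, map_mul]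
        have h1 : aeval (R.frob F j M) (g' M) = 0 := by
          obtain ⟨d, hd⟩ := Finset.dvd_prod_of_mem (fun j => (R.frob F j M).charpoly)
            (Finset.mem_erase.2 ⟨hji, hj⟩)
          change aeval (R.frob F j M) (∏ j ∈ (R.bounded M).toFinset.erase i,
            (R.frob F j M).charpoly) = 0
          rw [hd, map_mul, LinearMap.aeval_self_charpoly, zero_mul]
        change aeval (R.frob F j M) (g' M) * _ = 0
        rw [h1, zero_mul]
      rw [h2, map_zero, mul_zero]
  have hnat : F.app A ≫ u = u ≫ F.app E := (F.naturality u).symm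
  have hnat' : F.app E ≫ v = v ≫ F.app C := (F.naturality v).symm
  have e := specFun_add (R := R) hunit hne huv hk (a := F.app A) (f := F.app E) (c := F.app C)
    hnat hnat' P
  rw [key E ⟨g A * g C, by ring⟩ ⟨g' A * g' C, by ring⟩,
    key A ⟨g E * g C, by ring⟩ ⟨g' E * g' C, by ring⟩,
    key C ⟨g A * g E, by ring⟩ ⟨g' A * g' E, by ring⟩, ← mul_add] at e
  have hs : (if Even i then (1 : K) else -1) ≠ 0 := by split_ifs <;> norm_num
  have e2 := mul_left_cancel₀ hs e
  exact_mod_cast e2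

/-- An object without cohomology is zero. -/
lemma isZero_of_coh {F : 𝟭 𝒜 ⟶ 𝟭 𝒜} (hF : IsPure R F)
    (hunit : ∀ f : 𝟙_ 𝒜 ⟶ 𝟙_ 𝒜, ∃ q : ℚ, f = q • 𝟙 (𝟙_ 𝒜)) (hne : 𝟙 (𝟙_ 𝒜) ≠ 0) {M : 𝒜}
    (hM : ∀ i, Subsingleton ((R.H i).obj M)) : IsZero M := by
  haveI := R.finite
  by_contra hM0
  have hη : η_ M Mᘁ ≠ 0 := by
    intro h
    apply hM0
    rw [IsZero.iff_id_eq_zero]
    apply nm_injective
    simp [nm, h]
  haveI := mono_of_ne_zero (isIso_or_zero hunit) _ hη
  have hk : KernelOf (η_ M Mᘁ) (cokernel.π (η_ M Mᘁ)) :=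
    fun t ht => ⟨Abelian.monoLift _ t ht, Abelian.monoLift_comp _ t ht⟩
  have h1 : ∀ i, Module.finrank K ((R.H i).obj (𝟙_ 𝒜)) = 0 := by
    intro i
    have h2 := betti_add hF hunit hne (cokernel.condition (η_ M Mᘁ)) hk i
    haveI := hF.kunneth M Mᘁ hM i
    rw [Module.finrank_zero_of_subsingleton] at h2
    omega
  have h2 := R.trace_formula (𝟙_ 𝒜) (𝟙 _) 1 (by rw [tr_id_unit, one_smul])
  rw [finsum_eq_zero_of_forall_eq_zero] at h2
  · simp at h2
  · intro i
    haveI : Subsingleton ((R.H i).obj (𝟙_ 𝒜)) := Module.finrank_zero_iff.1 (h1 i)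
    have h3 : ((R.H i).map (𝟙 (𝟙_ 𝒜))).hom = 0 := LinearMap.ext fun x => Subsingleton.elim _ _
    rw [h3, map_zero, mul_zero]

/-- The cohomology reflects monomorphisms. -/
theorem mono_of_coh {F : 𝟭 𝒜 ⟶ 𝟭 𝒜} (hF : IsPure R F)
    (hunit : ∀ f : 𝟙_ 𝒜 ⟶ 𝟙_ 𝒜, ∃ q : ℚ, f = q • 𝟙 (𝟙_ 𝒜)) (hne : 𝟙 (𝟙_ 𝒜) ≠ 0) {M N : 𝒜}
    (f : M ⟶ N) (hf : ∀ i, Function.Injective ((R.H i).map f).hom) : Mono f := by
  haveI := R.finite
  have hk : KernelOf (kernel.ι f) (cokernel.π (kernel.ι f)) :=
    fun t ht => ⟨Abelian.monoLift _ t ht, Abelian.monoLift_comp _ t ht⟩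
  have h0 : IsZero (kernel f) := by
    apply isZero_of_coh hF hunit hne
    intro i
    have h1 := betti_add hF hunit hne (cokernel.condition (kernel.ι f)) hk i
    have h2 : Module.finrank K ((R.H i).obj M) ≤
        Module.finrank K ((R.H i).obj (cokernel (kernel.ι f))) := by
      apply LinearMap.finrank_le_finrank_of_injective
        (f := ((R.H i).map (cokernel.π (kernel.ι f))).hom)
      have h3 : cokernel.π (kernel.ι f) ≫ cokernel.desc (kernel.ι f) f (kernel.condition f) = f :=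
        cokernel.π_desc _ _ _
      have h4 := hf i
      rw [← h3, Functor.map_comp, ModuleCat.hom_comp, LinearMap.coe_comp] at h4
      exact Function.Injective.of_comp h4
    have h5 : Module.finrank K ((R.H i).obj (kernel f)) = 0 := by omega
    exact Module.finrank_zero_iff.1 h5
  exact Preadditive.mono_of_kernel_zero (h0.eq_of_src _ _)

/-- The cohomology reflects epimorphisms. -/
theorem epi_of_coh {F : 𝟭 𝒜 ⟶ 𝟭 𝒜} (hF : IsPure R F)
    (hunit : ∀ f : 𝟙_ 𝒜 ⟶ 𝟙_ 𝒜, ∃ q : ℚ, f = q • 𝟙 (𝟙_ 𝒜)) (hne : 𝟙 (𝟙_ 𝒜) ≠ 0) {M N : 𝒜}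
    (f : M ⟶ N) (hf : ∀ i, Function.Surjective ((R.H i).map f).hom) : Epi f := by
  haveI := R.finite
  have hk : KernelOf (kernel.ι (cokernel.π f)) (cokernel.π f) :=
    fun t ht => ⟨kernel.lift _ t ht, kernel.lift_ι _ t ht⟩
  have h0 : IsZero (cokernel f) := by
    apply isZero_of_coh hF hunit hne
    intro i
    have h1 := betti_add hF hunit hne (kernel.condition (cokernel.π f)) hk i
    have h2 : Module.finrank K ((R.H i).obj N) ≤
        Module.finrank K ((R.H i).obj (kernel (cokernel.π f))) := by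
      apply LinearMap.finrank_le_finrank_of_surjective
        (f := ((R.H i).map (kernel.ι (cokernel.π f))).hom)
      have h3 : kernel.lift (cokernel.π f) f (cokernel.condition f) ≫ kernel.ι (cokernel.π f) = f :=
        kernel.lift_ι _ _ _
      have h4 := hf i
      rw [← h3, Functor.map_comp, ModuleCat.hom_comp, LinearMap.coe_comp] at h4
      exact Function.Surjective.of_comp h4
    have h5 : Module.finrank K ((R.H i).obj (cokernel f)) = 0 := by omega
    exact Module.finrank_zero_iff.1 h5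
  exact Preadditive.epi_of_cokernel_zero (h0.eq_of_tgt _ _)

/-- Endomorphisms acting as zero on the cohomology are nilpotent. -/
theorem nilpotent_of_coh [MonoidalLinear ℚ 𝒜] (F : Frobenius R) (hF : IsPure R F.F)
    (hunit : ∀ f : 𝟙_ 𝒜 ⟶ 𝟙_ 𝒜, ∃ q : ℚ, f = q • 𝟙 (𝟙_ 𝒜)) (hne : 𝟙 (𝟙_ 𝒜) ≠ 0) {M : 𝒜}
    (f : M ⟶ M) (hf : ∀ i, (R.H i).map f = 0) : ∃ n : ℕ, pw f n = 0 := by
  have hfin : ∀ M : 𝒜, Module.Finite ℚ (𝟙_ 𝒜 ⟶ M) := fun M =>
    Module.rank_lt_aleph0_iff.1 ((rank_le F hunit hne M).trans_lt Cardinal.natCast_lt_aleph0)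
  haveI : Module.Finite ℚ (End M) := finite_hom hfin M M
  haveI : IsArtinianRing (End M) := IsArtinianRing.of_finite ℚ (End M)
  have hJ : (show End M from f) ∈ Ring.jacobson (End M) := by
    rw [← Ideal.jacobson_bot, Ideal.mem_jacobson_iff]
    intro y
    have h1 : ∀ i, Function.Bijective ((R.H i).map (𝟙 M + f ≫ (show M ⟶ M from y))).hom := by
      intro i
      haveI := R.additive i
      rw [Functor.map_add, Functor.map_comp, hf i, Limits.zero_comp, add_zero, CategoryTheory.Functor.map_id]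
      exact Function.bijective_id
    haveI := mono_of_coh hF hunit hne _ fun i => (h1 i).1
    haveI := epi_of_coh hF hunit hne _ fun i => (h1 i).2
    haveI : IsIso (𝟙 M + f ≫ (show M ⟶ M from y)) := isIso_of_mono_of_epi _
    refine ⟨(show End M from inv (𝟙 M + f ≫ (show M ⟶ M from y))), ?_⟩
    rw [Submodule.mem_bot, sub_eq_zero, mul_assoc, ← mul_add_one]
    have h2 : y * (show End M from f) + 1 = (show End M from (𝟙 M + f ≫ (show M ⟶ M from y))) :=
      add_comm _ _
    rw [h2]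
    exact IsIso.hom_inv_id (𝟙 M + f ≫ (show M ⟶ M from y))
  obtain ⟨n, hn⟩ := IsSemiprimaryRing.isNilpotent (R := End M)
  refine ⟨n, ?_⟩
  have h2 : (show End M from f) ^ n = 0 := by
    have h3 := Ideal.pow_mem_pow hJ n
    rw [hn] at h3
    exact h3
  rw [pow_eq_pw] at h2
  exact h2

end

end Pool.Agent.TH90.AB
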