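import Pool.Agent.TH90.AB.Defs
import Mathlib.CategoryTheory.Idempotents.Basic
import Mathlib.CategoryTheory.Limits.Shapes.Biproducts

/-!
# Regular additive categories are abelian
-/

open CategoryTheory Limits

universe u v

namespace Pool.Agent.TH90.AB

set_option linter.style.haveILetI false

noncomputable section

variable {𝒜 : Type u} [Category.{v} 𝒜] [Preadditive 𝒜] [HasFiniteBiproducts 𝒜]
  [IsIdempotentComplete 𝒜]

/-- An idempotent complete additive category in which all morphisms are von Neumann regular is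
abelian. -/
theorem isAbelian_of_regular (hreg : ∀ {M N : 𝒜} (f : M ⟶ N), ∃ g : N ⟶ M, f ≫ g ≫ f = f) :
    IsAbelian 𝒜 := by
  have hker : ∀ {M N : 𝒜} (f : M ⟶ N), HasLimit (parallelPair f 0) := by
    intro M N f
    obtain ⟨g, hg⟩ := hreg f
    obtain ⟨Y, i, e, hie, hei⟩ := IsIdempotentComplete.idempotents_split M (𝟙 M - f ≫ g) (by
      simp only [Preadditive.sub_comp, Preadditive.comp_sub, Category.id_comp, Category.comp_id,
        Category.assoc]
      rw [← Category.assoc g, ← Category.assoc f, hg]
      simp)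
    have hif : i ≫ f = 0 := by
      have h1 : i ≫ f = i ≫ (e ≫ i) ≫ f := by rw [← Category.assoc, ← Category.assoc, hie]; simp
      rw [h1, hei, Preadditive.sub_comp, Category.id_comp, Category.assoc, hg, sub_self, comp_zero]
    refine ⟨⟨⟨KernelFork.ofι i hif, ?_⟩⟩⟩
    refine KernelFork.IsLimit.ofι i hif (fun t _ => t ≫ e) (fun t ht => ?_) (fun t ht m hm => ?_)
    · rw [Category.assoc, hei, Preadditive.comp_sub, Category.comp_id, ← Category.assoc, ht,
        zero_comp, sub_zero]
    · rw [← hm, Category.assoc, hie, Category.comp_id]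
  have hcok : ∀ {M N : 𝒜} (f : M ⟶ N), HasColimit (parallelPair f 0) := by
    intro M N f
    obtain ⟨g, hg⟩ := hreg f
    obtain ⟨Y, i, e, hie, hei⟩ := IsIdempotentComplete.idempotents_split N (𝟙 N - g ≫ f) (by
      simp only [Preadditive.sub_comp, Preadditive.comp_sub, Category.id_comp, Category.comp_id,
        Category.assoc]
      rw [hg]
      simp)
    have hfe : f ≫ e = 0 := by
      have h1 : f ≫ e = f ≫ (e ≫ i) ≫ e := by rw [Category.assoc, hie]; simp
      rw [h1, hei, Preadditive.sub_comp, Category.id_comp, Preadditive.comp_sub,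
        ← Category.assoc f, hg, sub_self]
    refine ⟨⟨⟨CokernelCofork.ofπ e hfe, ?_⟩⟩⟩
    refine CokernelCofork.IsColimit.ofπ e hfe (fun t _ => i ≫ t) (fun t ht => ?_)
      (fun t ht m hm => ?_)
    · rw [← Category.assoc, hei, Preadditive.sub_comp, Category.id_comp, Category.assoc, ht,
        comp_zero, sub_zero]
    · rw [← hm, ← Category.assoc, hie, Category.id_comp]
  haveI hk : HasKernels 𝒜 := ⟨fun f => hker f⟩
  haveI hc : HasCokernels 𝒜 := ⟨fun f => hcok f⟩
  haveI hm : IsNormalMonoCategory 𝒜 := by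
    refine ⟨fun {M N} f hf => ?_⟩
    obtain ⟨g, hg⟩ := hreg f
    have h1 : f ≫ g = 𝟙 M := by
      rw [← cancel_mono f, Category.assoc, hg, Category.id_comp]
    refine ⟨⟨N, 𝟙 N - g ≫ f, ?_, ?_⟩⟩
    · rw [Preadditive.comp_sub, Category.comp_id, hg, sub_self]
    · refine KernelFork.IsLimit.ofι f _ (fun t _ => t ≫ g) (fun t ht => ?_) (fun t ht m hm => ?_)
      · rw [Preadditive.comp_sub, Category.comp_id, sub_eq_zero] at ht
        rw [Category.assoc, ← ht]
      · rw [← hm, Category.assoc, h1, Category.comp_id]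
  haveI he : IsNormalEpiCategory 𝒜 := by
    refine ⟨fun {M N} f hf => ?_⟩
    obtain ⟨g, hg⟩ := hreg f
    have h1 : g ≫ f = 𝟙 N := by
      rw [← cancel_epi f, hg, Category.comp_id]
    refine ⟨⟨M, 𝟙 M - f ≫ g, ?_, ?_⟩⟩
    · rw [Preadditive.sub_comp, Category.id_comp, Category.assoc, hg, sub_self]
    · refine CokernelCofork.IsColimit.ofπ f _ (fun t _ => g ≫ t) (fun t ht => ?_)
        (fun t ht m hm => ?_)
      · rw [Preadditive.sub_comp, Category.id_comp, sub_eq_zero, Category.assoc] at ht
        rw [← ht]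
      · rw [← hm, ← Category.assoc, h1, Category.id_comp]
  letI : Abelian 𝒜 := { (inferInstance : Preadditive 𝒜), hm, he with
    has_finite_products := inferInstance
    has_kernels := hk
    has_cokernels := hc }
  exact ⟨hk, hc, fun f => inferInstance⟩

end

end Pool.Agent.TH90.AB
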