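import Mathlib.CategoryTheory.Monoidal.Rigid.Braided
import Mathlib.CategoryTheory.Monoidal.Preadditive
import Mathlib.CategoryTheory.Monoidal.Linear
import Mathlib.CategoryTheory.Abelian.Basic

/-!
# Traces in symmetric monoidal categories with duals
-/

open CategoryTheory MonoidalCategory Limits BraidedCategory

universe u v

namespace Pool.Agent.TH90.AB

set_option linter.unusedSectionVars false
set_option linter.style.haveILetI false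

noncomputable section

variable {𝒜 : Type u} [Category.{v} 𝒜] [MonoidalCategory 𝒜] [BraidedCategory 𝒜]
  [hdual : ∀ X : 𝒜, HasRightDual X]

/-- The trace of an endomorphism of `M`: the composition
`1 ⟶ M ⊗ M^∨ ⟶ M ⊗ M^∨ ⟶ M^∨ ⊗ M ⟶ 1`. -/
def tr {M : 𝒜} (f : M ⟶ M) : 𝟙_ 𝒜 ⟶ 𝟙_ 𝒜 :=
  η_ M Mᘁ ≫ f ▷ Mᘁ ≫ (β_ M Mᘁ).hom ≫ ε_ M Mᘁ

/-- The evaluation `M ⊗ M^∨ ⟶ 1`. -/
def ev (M : 𝒜) : M ⊗ Mᘁ ⟶ 𝟙_ 𝒜 := (β_ M Mᘁ).hom ≫ ε_ M Mᘁ

lemma tr_eq {M : 𝒜} (f : M ⟶ M) : tr f = η_ M Mᘁ ≫ f ▷ Mᘁ ≫ ev M := rfl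

/-- The name `1 ⟶ N ⊗ M^∨` of a morphism. -/
def nm {M N : 𝒜} (f : M ⟶ N) : 𝟙_ 𝒜 ⟶ N ⊗ Mᘁ := η_ M Mᘁ ≫ f ▷ Mᘁ

lemma tr_eq_nm {M : 𝒜} (f : M ⟶ M) : tr f = nm f ≫ ev M := by
  rw [tr_eq, nm, Category.assoc]

lemma nm_comp {M N P : 𝒜} (f : M ⟶ N) (g : N ⟶ P) : nm (f ≫ g) = nm f ≫ g ▷ Mᘁ := by
  simp [nm]

/-- Dinaturality of the coevaluation. -/
lemma nm_comp_mate {M N P : 𝒜} (f : M ⟶ N) (g : N ⟶ P) :
    nm (f ≫ g) = nm g ≫ P ◁ fᘁ := by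
  have h := coevaluation_comp_rightAdjointMate f
  simp only [nm, comp_whiskerRight, Category.assoc]
  rw [← reassoc_of% h]
  simp only [whisker_exchange]

/-- Dinaturality of the evaluation. -/
lemma ev_dinat {M N : 𝒜} (f : M ⟶ N) : f ▷ Nᘁ ≫ ev N = M ◁ fᘁ ≫ ev M := by
  have h := rightAdjointMate_comp_evaluation f
  simp only [ev]
  rw [← Category.assoc, braiding_naturality_left, Category.assoc, ← h, ← Category.assoc,
    ← Category.assoc, braiding_naturality_right]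

lemma nm_injective {M N : 𝒜} {f g : M ⟶ N} (h : nm f = nm g) : f = g := by
  have key : ∀ f : M ⟶ N, f = (λ_ M).inv ≫ nm f ▷ M ≫ (α_ N Mᘁ M).hom ≫ N ◁ ε_ M Mᘁ ≫
      (ρ_ N).hom := by
    intro f
    simp only [nm, comp_whiskerRight, Category.assoc]
    have e1 : (f ▷ Mᘁ) ▷ M ≫ (α_ N Mᘁ M).hom ≫ N ◁ ε_ M Mᘁ =
        (α_ M Mᘁ M).hom ≫ M ◁ ε_ M Mᘁ ≫ f ▷ 𝟙_ 𝒜 := by
      rw [whisker_exchange, associator_naturality_left_assoc]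
    rw [reassoc_of% e1, ExactPairing.evaluation_coevaluation_assoc]
    simp
  rw [key f, key g, h]

/-- Cyclicity of the trace. -/
lemma tr_comm {M N : 𝒜} (f : M ⟶ N) (g : N ⟶ M) : tr (f ≫ g) = tr (g ≫ f) := by
  rw [tr_eq_nm, nm_comp_mate, Category.assoc, ← ev_dinat, tr_eq_nm, nm_comp, Category.assoc]

/-- The trace of the identity of the unit object. -/
lemma tr_id_unit : tr (𝟙 (𝟙_ 𝒜)) = 𝟙 (𝟙_ 𝒜) := by
  have h := ExactPairing.evaluation_coevaluation (𝟙_ 𝒜) (𝟙_ 𝒜)ᘁ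
  rw [tr_eq]
  simp only [ev, id_whiskerRight, Category.id_comp, braiding_tensorUnit_left, Category.assoc]
  have e1 : η_ (𝟙_ 𝒜) (𝟙_ 𝒜)ᘁ ≫ (λ_ (𝟙_ 𝒜)ᘁ).hom ≫ (ρ_ (𝟙_ 𝒜)ᘁ).inv ≫ ε_ (𝟙_ 𝒜) (𝟙_ 𝒜)ᘁ =
      (ρ_ (𝟙_ 𝒜)).inv ≫ (η_ (𝟙_ 𝒜) (𝟙_ 𝒜)ᘁ ▷ 𝟙_ 𝒜 ≫ (α_ (𝟙_ 𝒜) (𝟙_ 𝒜)ᘁ (𝟙_ 𝒜)).hom ≫
        𝟙_ 𝒜 ◁ ε_ (𝟙_ 𝒜) (𝟙_ 𝒜)ᘁ) ≫ (λ_ (𝟙_ 𝒜)).hom := by
    monoidal
  rw [e1, h]
  monoidal

/-! ### Exactness of the tensor product -/

/-- Tensoring on the right preserves epimorphisms. -/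
lemma epi_whiskerRight {E C : 𝒜} (v : E ⟶ C) [Epi v] (Y : 𝒜) : Epi (v ▷ Y) := by
  constructor
  intro Z g h hgh
  apply (tensorRightHomEquiv C Y Yᘁ Z).injective
  rw [← cancel_epi v]
  have e1 : ∀ g : C ⊗ Y ⟶ Z, v ≫ (tensorRightHomEquiv C Y Yᘁ Z) g =
      (tensorRightHomEquiv E Y Yᘁ Z) (v ▷ Y ≫ g) := by
    intro g
    rw [← (tensorRightHomEquiv E Y Yᘁ Z).symm_apply_eq, tensorRightHomEquiv_symm_naturality,
      Equiv.symm_apply_apply]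
  rw [e1, e1, hgh]

/-- Tensoring on the left preserves epimorphisms. -/
lemma epi_whiskerLeft {E C : 𝒜} (v : E ⟶ C) [Epi v] (Y : 𝒜) : Epi (Y ◁ v) := by
  have h : Y ◁ v = (β_ Y E).hom ≫ v ▷ Y ≫ (β_ Y C).inv := by
    rw [← braiding_naturality_right_assoc, Iso.hom_inv_id, Category.comp_id]
  rw [h]
  haveI := epi_whiskerRight v Y
  infer_instance

/-- Tensoring on the right preserves monomorphisms. -/
lemma mono_whiskerRight {A E : 𝒜} (u : A ⟶ E) [Mono u] (Y : 𝒜) : Mono (u ▷ Y) := by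
  letI : ExactPairing Yᘁ Y := exactPairing_swap Y Yᘁ
  constructor
  intro Z g h hgh
  apply (tensorRightHomEquiv Z Yᘁ Y A).symm.injective
  rw [← cancel_mono u]
  have e1 : ∀ g : Z ⟶ A ⊗ Y, (tensorRightHomEquiv Z Yᘁ Y A).symm g ≫ u =
      (tensorRightHomEquiv Z Yᘁ Y E).symm (g ≫ u ▷ Y) := by
    intro g
    rw [Equiv.eq_symm_apply, tensorRightHomEquiv_naturality, Equiv.apply_symm_apply]
  rw [e1, e1, hgh]

/-- Tensoring on the left preserves monomorphisms. -/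
lemma mono_whiskerLeft {A E : 𝒜} (u : A ⟶ E) [Mono u] (Y : 𝒜) : Mono (Y ◁ u) := by
  have h : Y ◁ u = (β_ Y A).hom ≫ u ▷ Y ≫ (β_ Y E).inv := by
    rw [← braiding_naturality_right_assoc, Iso.hom_inv_id, Category.comp_id]
  rw [h]
  haveI := mono_whiskerRight u Y
  infer_instance

section preadditive

variable [Preadditive 𝒜] [MonoidalPreadditive 𝒜]

/-- The morphism `u` is a kernel of `v` (as a statement on morphisms). -/
def KernelOf {A E C : 𝒜} (u : A ⟶ E) (v : E ⟶ C) : Prop :=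
  ∀ {T : 𝒜} (t : T ⟶ E), t ≫ v = 0 → ∃ s : T ⟶ A, s ≫ u = t

/-- Tensoring preserves kernels. -/
lemma KernelOf.whiskerRight {A E C : 𝒜} {u : A ⟶ E} {v : E ⟶ C} (h : KernelOf u v) (Y : 𝒜) :
    KernelOf (u ▷ Y) (v ▷ Y) := by
  letI : ExactPairing Yᘁ Y := exactPairing_swap Y Yᘁ
  intro T t ht
  have e1 : ∀ {A E : 𝒜} (u : A ⟶ E) (g : T ⟶ A ⊗ Y), (tensorRightHomEquiv T Yᘁ Y A).symm g ≫ u =
      (tensorRightHomEquiv T Yᘁ Y E).symm (g ≫ u ▷ Y) := by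
    intro A E u g
    rw [Equiv.eq_symm_apply, tensorRightHomEquiv_naturality, Equiv.apply_symm_apply]
  have e0 : (tensorRightHomEquiv T Yᘁ Y C).symm 0 = 0 := by
    rw [Equiv.symm_apply_eq]
    simp [tensorRightHomEquiv]
  obtain ⟨s, hs⟩ := h ((tensorRightHomEquiv T Yᘁ Y E).symm t) (by rw [e1, ht, e0])
  refine ⟨tensorRightHomEquiv T Yᘁ Y A s, ?_⟩
  rw [← tensorRightHomEquiv_naturality, hs, Equiv.apply_symm_apply]

lemma zero_comp_mate {A E C : 𝒜} {u : A ⟶ E} {v : E ⟶ C} (h : u ≫ v = 0) :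
    vᘁ ≫ uᘁ = 0 := by
  rw [← comp_rightAdjointMate, h]
  simp [rightAdjointMate]

end preadditive

section abelian

variable [Abelian 𝒜] [MonoidalPreadditive 𝒜]

/-- Additivity of the trace in short exact sequences. -/
lemma tr_add {A E C : 𝒜} {u : A ⟶ E} {v : E ⟶ C} [Mono u] [Epi v] (huv : u ≫ v = 0)
    (hk : KernelOf u v) {a : A ⟶ A} {f : E ⟶ E} {c : C ⟶ C} (hu : a ≫ u = u ≫ f)
    (hv : f ≫ v = v ≫ c) : tr f = tr a + tr c := by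
  haveI := epi_whiskerRight v Cᘁ
  haveI := mono_whiskerRight u Aᘁ
  set P := pullback (nm c) (v ▷ Cᘁ) with hP
  set p : P ⟶ 𝟙_ 𝒜 := pullback.fst (nm c) (v ▷ Cᘁ) with hp
  set s : P ⟶ E ⊗ Cᘁ := pullback.snd (nm c) (v ▷ Cᘁ) with hs
  haveI : Epi p := by rw [hp]; infer_instance
  have hps : s ≫ v ▷ Cᘁ = p ≫ nm c := (pullback.condition).symm
  have h1 : (p ≫ nm f - s ≫ E ◁ vᘁ) ≫ v ▷ Eᘁ = 0 := by
    rw [Preadditive.sub_comp, Category.assoc, Category.assoc, ← nm_comp, hv, nm_comp_mate,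
      whisker_exchange, ← Category.assoc s, hps, Category.assoc, sub_self]
  obtain ⟨t, ht⟩ := hk.whiskerRight Eᘁ _ h1
  have h2 : p ≫ nm f = s ≫ E ◁ vᘁ + t ≫ u ▷ Eᘁ := by rw [ht]; abel
  have h3 : t ≫ A ◁ uᘁ = p ≫ nm a := by
    rw [← cancel_mono (u ▷ Aᘁ)]
    have e1 : (t ≫ A ◁ uᘁ) ≫ u ▷ Aᘁ = (t ≫ u ▷ Eᘁ) ≫ E ◁ uᘁ := by
      rw [Category.assoc, Category.assoc, whisker_exchange]
    have e2 : (s ≫ E ◁ vᘁ) ≫ E ◁ uᘁ = 0 := by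
      rw [Category.assoc, ← MonoidalCategory.whiskerLeft_comp, zero_comp_mate huv]
      simp
    have e3 : (t ≫ u ▷ Eᘁ) ≫ E ◁ uᘁ = (p ≫ nm f) ≫ E ◁ uᘁ := by
      rw [h2, Preadditive.add_comp, e2, zero_add]
    rw [e1, e3, Category.assoc, Category.assoc, ← nm_comp_mate, ← nm_comp, hu]
  rw [← cancel_epi p]
  rw [tr_eq_nm, tr_eq_nm, tr_eq_nm, ← Category.assoc, h2, Preadditive.add_comp,
    Preadditive.comp_add, Category.assoc, Category.assoc, ← ev_dinat, ev_dinat u,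
    ← Category.assoc, hps, ← Category.assoc, h3, Category.assoc, Category.assoc, add_comm]

lemma isZero_tensor_of_left {U V : 𝒜} (h : IsZero U) : IsZero (U ⊗ V) := by
  rw [IsZero.iff_id_eq_zero] at h ⊢
  rw [← id_whiskerRight, h, MonoidalPreadditive.zero_whiskerRight]

lemma isZero_tensor_of_right {U V : 𝒜} (h : IsZero V) : IsZero (U ⊗ V) := by
  rw [IsZero.iff_id_eq_zero] at h ⊢
  rw [← MonoidalCategory.whiskerLeft_id, h, MonoidalPreadditive.whiskerLeft_zero]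

/-- In an abelian category with duals in which all endomorphisms of the unit object are zero or
invertible, a non-zero morphism from the unit object is a monomorphism. -/
lemma mono_of_ne_zero (hunit : ∀ f : 𝟙_ 𝒜 ⟶ 𝟙_ 𝒜, f = 0 ∨ IsIso f) {M : 𝒜} (z : 𝟙_ 𝒜 ⟶ M)
    (hz : z ≠ 0) : Mono z := by
  set U := kernel z with hU
  set j : U ⟶ 𝟙_ 𝒜 := kernel.ι z with hj
  set V := cokernel j with hV
  set q : 𝟙_ 𝒜 ⟶ V := cokernel.π j with hq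
  have hjq : j ≫ q = 0 := cokernel.condition j
  have hq0 : q ≠ 0 := by
    intro h
    apply hz
    have h1 : q ≫ cokernel.desc j z (kernel.condition z) = z := cokernel.π_desc _ _ _
    rw [← h1, h, zero_comp]
  haveI : Epi q := by rw [hq]; infer_instance
  haveI : Mono j := by rw [hj]; infer_instance
  -- `U ⊗ V = 0`
  have hUV : IsZero (U ⊗ V) := by
    haveI := epi_whiskerLeft q U
    haveI := mono_whiskerRight j V
    have h1 : U ◁ q ≫ j ▷ V = 0 := by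
      rw [whisker_exchange]
      have e1 : j ▷ 𝟙_ 𝒜 ≫ 𝟙_ 𝒜 ◁ q = (ρ_ U).hom ≫ (j ≫ q) ≫ (λ_ V).inv := by
        simp [unitors_equal]
      rw [e1, hjq, zero_comp, comp_zero]
    have h2 : U ◁ q = 0 := by
      rw [← cancel_mono (j ▷ V), h1, zero_comp]
    exact IsZero.of_epi_eq_zero _ h2
  -- `U ⊗ V^∨ = 0`
  have hUV' : IsZero (U ⊗ Vᘁ) := by
    letI : ExactPairing Vᘁ V := exactPairing_swap V Vᘁ
    rw [IsZero.iff_id_eq_zero]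
    apply (tensorRightHomEquiv (U ⊗ Vᘁ) V Vᘁ U).symm.injective
    apply IsZero.eq_of_src
    have e : (U ⊗ Vᘁ) ⊗ V ≅ (U ⊗ V) ⊗ Vᘁ :=
      α_ U Vᘁ V ≪≫ whiskerLeftIso U (β_ Vᘁ V) ≪≫ (α_ U V Vᘁ).symm
    exact (isZero_tensor_of_left hUV).of_iso e
  -- `V^∨ ≅ V ⊗ V^∨`
  haveI hepi := epi_whiskerRight q Vᘁ
  haveI hmono : Mono (q ▷ Vᘁ) := by
    apply Preadditive.mono_of_cancel_zero
    intro T g hg
    have hk : KernelOf j q := by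
      intro T t ht
      exact ⟨Abelian.monoLift j t ht, Abelian.monoLift_comp j t ht⟩
    obtain ⟨s, hs⟩ := hk.whiskerRight Vᘁ g hg
    rw [← hs, hUV'.eq_of_tgt s 0, zero_comp]
  haveI : IsIso (q ▷ Vᘁ) := isIso_of_mono_of_epi _
  let c : 𝟙_ 𝒜 ⟶ Vᘁ := η_ V Vᘁ ≫ inv (q ▷ Vᘁ) ≫ (λ_ Vᘁ).hom
  let k : Vᘁ ⟶ 𝟙_ 𝒜 := (ρ_ Vᘁ).inv ≫ Vᘁ ◁ q ≫ ε_ V Vᘁ
  haveI hkmono : Mono k := by
    apply Preadditive.mono_of_cancel_zero
    intro T t ht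
    haveI := epi_whiskerLeft q T
    have e1 : T ◁ q ≫ t ▷ V ≫ ε_ V Vᘁ = (ρ_ T).hom ≫ t ≫ k := by
      rw [← Category.assoc, whisker_exchange]
      simp [k]
    rw [ht, comp_zero] at e1
    have e2 : t ▷ V ≫ ε_ V Vᘁ = 0 := by
      rw [← cancel_epi (T ◁ q), e1, comp_zero]
    letI : ExactPairing Vᘁ V := exactPairing_swap V Vᘁ
    have e3 : t = (ρ_ T).inv ≫ T ◁ η_ V Vᘁ ≫ (α_ T V Vᘁ).inv ≫ (t ▷ V ≫ ε_ V Vᘁ) ▷ Vᘁ ≫
        (λ_ Vᘁ).hom := by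
      have h := ExactPairing.coevaluation_evaluation V Vᘁ
      have e4 : (ρ_ T).inv ≫ T ◁ η_ V Vᘁ ≫ (α_ T V Vᘁ).inv ≫ (t ▷ V ≫ ε_ V Vᘁ) ▷ Vᘁ ≫
          (λ_ Vᘁ).hom = t ≫ (ρ_ Vᘁ).inv ≫ (Vᘁ ◁ η_ V Vᘁ ≫ (α_ Vᘁ V Vᘁ).inv ≫ ε_ V Vᘁ ▷ Vᘁ) ≫
            (λ_ Vᘁ).hom := by
        simp only [comp_whiskerRight, Category.assoc]
        rw [← associator_inv_naturality_left_assoc, whisker_exchange_assoc]
        simp
      rw [e4, h]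
      simp
    rw [e3, e2]
    simp
  have hη : η_ V Vᘁ ≠ 0 := by
    intro h
    apply hq0
    have h1 : 𝟙 V = 0 := by
      apply nm_injective
      simp [nm, h]
    rw [← Category.comp_id q, h1, comp_zero]
  have hc : c ≠ 0 := by
    intro h
    apply hη
    have h1 : c ≫ (λ_ Vᘁ).inv ≫ q ▷ Vᘁ = η_ V Vᘁ := by simp [c]
    rw [← h1, h, zero_comp]
  have hU0 : IsZero U := by
    rcases hunit (c ≫ k) with h | h
    · exact absurd ((cancel_mono k).1 (h.trans (zero_comp).symm)) hc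
    · haveI : IsIso (c ≫ k) := h
      haveI : IsSplitEpi k := IsSplitEpi.mk' ⟨inv (c ≫ k) ≫ c, by simp⟩
      haveI : IsIso k := isIso_of_mono_of_isSplitEpi k
      exact hUV'.of_iso ((ρ_ U).symm ≪≫ whiskerLeftIso U (asIso k).symm)
  exact Preadditive.mono_of_kernel_zero (hU0.eq_of_src _ _)

end abelian

end

end Pool.Agent.TH90.AB
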